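import Pool.Agent.R280.OrdBanach

/-!
# Separable ordered Banach spaces with property (S) (MP_5127fd_an, Q2: proved)

In a separable ordered Banach space with property (S) every increasing order bounded sequence
converges in norm. The cone is normal by the answer to Q1 (`normal_of_propertyS`). If an increasing
order bounded sequence is not Cauchy, it has increments `d k ≥ 0` with `‖d k‖ ≥ ε` and order bounded
partial sums. For real `r` let `s r` be the supremum of the partial sums of those `d k` for which the
rational number `q k` is less than `r`. If `r < r'`, then `s r' - s r ≥ d k ≥ 0` for some `k`, so the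
uncountably many points `s r` have mutual distances bounded below, a contradiction.
-/

set_option autoImplicit false

universe u

open Pool.Agent.R280.OrdBanach Filter Topology

namespace Pool.Agent.Results.MP_5127fd_an.SeparableConvergence

variable {X : Type u} [NormedAddCommGroup X] [NormedSpace ℝ X] {K : Set X}

/-- increments with norms bounded below and bounded partial sums are impossible -/
theorem no_increments [TopologicalSpace.SeparableSpace X] (hK : IsClosedCone K)
    (hS : PropertyS K) (hN : IsNormalCone K) {d : ℕ → X} (hd : ∀ k, d k ∈ K) {y : X}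
    (hy : ∀ n, Le K (psum d (fun _ => 1) n) y) {ε : ℝ} (hε : 0 < ε) (hn : ∀ k, ε ≤ ‖d k‖) :
    False := by
  classical
  obtain ⟨q, hq⟩ : ∃ q : ℕ → ℚ, Function.Surjective q := exists_surjective_nat ℚ
  obtain ⟨c, hc, hcn⟩ := hN
  let t : ℝ → ℕ → ℝ := fun r k => if (q k : ℝ) < r then 1 else 0
  have ht : ∀ r k, 0 ≤ t r k := by
    intro r k
    show (0 : ℝ) ≤ if (q k : ℝ) < r then 1 else 0
    split_ifs <;> norm_num
  have ht1 : ∀ r k, t r k ≤ 1 := by
    intro r k
    show (if (q k : ℝ) < r then 1 else 0) ≤ (1 : ℝ)
    split_ifs <;> norm_num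
  choose s hs using fun r => psum_sup hK hS hd hy (ht r) (ht1 r)
  have key : ∀ r r' : ℝ, r < r' → ε / c ≤ dist (s r) (s r') := by
    intro r r' hr
    obtain ⟨x, hx1, hx2⟩ := exists_rat_btwn hr
    obtain ⟨j, hj⟩ := hq x
    have hjr : t r j = 0 := by
      show (if (q j : ℝ) < r then (1 : ℝ) else 0) = 0
      rw [if_neg (by rw [hj]; exact not_lt.2 hx1.le)]
    have hjr' : t r' j = 1 := by
      show (if (q j : ℝ) < r' then (1 : ℝ) else 0) = 1
      rw [if_pos (by rw [hj]; exact hx2)]
    have hle : ∀ k, t r k ≤ t r' k := by
      intro k
      show (if (q k : ℝ) < r then (1 : ℝ) else 0) ≤ if (q k : ℝ) < r' then 1 else 0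
      split_ifs with h1 h2
      · exact le_rfl
      · exact absurd (h1.trans hr) h2
      · norm_num
      · exact le_rfl
    -- the partial sums
    have hps : ∀ n, j < n → Le K (psum d (t r) n + d j) (psum d (t r') n) := by
      intro n hjn
      have e : psum d (t r') n - (psum d (t r) n + d j) =
          ∑ k ∈ (Finset.range n).erase j, (t r' k - t r k) • d k := by
        unfold psum
        rw [← Finset.add_sum_erase _ (fun k => t r' k • d k) (Finset.mem_range.2 hjn),
          ← Finset.add_sum_erase _ (fun k => t r k • d k) (Finset.mem_range.2 hjn)]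
        simp only [sub_smul, Finset.sum_sub_distrib, hjr, hjr', zero_smul, one_smul]
        abel
      unfold Le
      rw [e]
      refine Finset.sum_induction _ (fun x => x ∈ K) (fun a b ha hb => hK.add a ha b hb)
        hK.zero (fun k _ => ?_)
      exact hK.smul _ (sub_nonneg.2 (hle k)) _ (hd k)
    have hup : Le K (s r) (s r' - d j) := by
      refine (hs r).2 _ (fun n => ?_)
      have h1 : Le K (psum d (t r) n) (psum d (t r) (max n (j + 1))) :=
        (psum_incr hK hd (ht r)).mono hK (le_max_left _ _)
      have h2 := hps (max n (j + 1)) (lt_of_lt_of_le (Nat.lt_succ_self j) (le_max_right _ _))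
      have h3 := (hs r').1 (max n (j + 1))
      have h4 := le_trans' hK h2 h3
      have h5 : Le K (psum d (t r) (max n (j + 1))) (s r' - d j) := by
        unfold Le at h4 ⊢
        convert h4 using 1
        abel
      exact le_trans' hK h1 h5
    have h6 : ‖d j‖ ≤ c * ‖s r' - s r‖ := by
      refine hcn _ _ ?_ ?_
      · unfold Le; rw [sub_zero]; exact hd j
      · unfold Le at hup ⊢
        convert hup using 1
        abel
    rw [dist_comm, dist_eq_norm, div_le_iff₀ hc, mul_comm]
    exact (hn j).trans h6
  have key' : ∀ r r' : ℝ, r ≠ r' → ε / c ≤ dist (s r) (s r') := by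
    intro r r' h
    rcases lt_or_gt_of_ne h with h | h
    · exact key r r' h
    · rw [dist_comm]; exact key r' r h
  have hpos : 0 < ε / c := div_pos hε hc
  have hcount : (Set.univ : Set ℝ).Countable := by
    refine Set.PairwiseDisjoint.countable_of_isOpen
      (s := fun r => Metric.ball (s r) (ε / c / 2)) ?_ (fun r _ => Metric.isOpen_ball)
      (fun r _ => ⟨s r, Metric.mem_ball_self (by linarith)⟩)
    intro r _ r' _ h
    exact Metric.ball_disjoint_ball (by linarith [key' r r' h])
  exact Cardinal.not_countable_real hcount

/-- Let `X` be a separable real Banach space ordered by the closed cone `K`. If every increasing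
order bounded sequence has a supremum, then every increasing order bounded sequence converges in
norm. -/
theorem result (X : Type u) [NormedAddCommGroup X] [NormedSpace ℝ X] [CompleteSpace X]
    [TopologicalSpace.SeparableSpace X] (K : Set X) (hK : IsClosedCone K) (hS : PropertyS K) :
    ∀ v : ℕ → X, IsIncreasing K v → IsOrderBounded K v → ∃ x, Tendsto v atTop (𝓝 x) := by
  intro v hv hb
  by_contra hcon
  have hnc : ¬ CauchySeq v := fun h => hcon (cauchySeq_tendsto_of_complete h)
  rw [Metric.cauchySeq_iff'] at hnc
  push Not at hnc
  obtain ⟨ε, hε, hN⟩ := hnc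
  choose f hf1 hf2 using hN
  obtain ⟨a, b, hab⟩ := hb
  let g : ℕ → ℕ := fun j => f^[j] 0
  have hg : ∀ j, g (j + 1) = f (g j) := fun j => Function.iterate_succ_apply' f j 0
  refine no_increments hK hS (normal_of_propertyS hK hS) (d := fun j => v (g (j + 1)) - v (g j))
    (y := b - v (g 0)) (fun k => ?_) (fun n => ?_) hε (fun k => ?_)
  · have h1 : Le K (v (g k)) (v (g (k + 1))) := by
      rw [hg]; exact hv.mono hK (hf1 _)
    exact h1
  · have e : psum (fun j => v (g (j + 1)) - v (g j)) (fun _ => 1) n = v (g n) - v (g 0) := by
      unfold psum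
      simp only [one_smul]
      exact Finset.sum_range_sub (fun j => v (g j)) n
    rw [e]
    have h1 := (hab (g n)).2
    unfold Le at h1 ⊢
    convert h1 using 1
    abel
  · have h1 := hf2 (g k)
    rw [dist_eq_norm, ← hg] at h1
    exact h1

end Pool.Agent.Results.MP_5127fd_an.SeparableConvergence
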